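import Mathlib
import Pool.Agent.Q291.OP.Contour

/-!
# Percolation with i.i.d. out-neighbourhoods on `ℤ²`

The out-neighbourhood of a vertex is the set of directions in which an infection with rate `μ` per
edge is transmitted during an exponential lifetime of mean one.
-/

set_option autoImplicit false
set_option linter.unusedSectionVars false

namespace Q288.CEC

open MeasureTheory
open scoped ENNReal NNReal
open Q291.OP (vec)

abbrev V := ℤ × ℤ
abbrev Dir := Finset (Fin 4)

instance finMS {α : Type*} : MeasurableSpace (Finset α) := ⊤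
instance finDMS {α : Type*} : DiscreteMeasurableSpace (Finset α) := ⟨fun _ => trivial⟩

/-- weight of a set of `k` directions -/
noncomputable def wt (μ : ℝ≥0) : ℕ → ℝ≥0∞
  | 0 => (1 + 4 * (μ : ℝ≥0∞))⁻¹
  | k + 1 => (μ : ℝ≥0∞) * (k + 1 : ℕ) * wt μ k * (1 + (3 - k : ℕ) * (μ : ℝ≥0∞))⁻¹

lemma wt_ne_top (μ : ℝ≥0) (k : ℕ) : wt μ k ≠ ⊤ := by
  induction k with
  | zero =>
    rw [wt]
    exact ENNReal.inv_ne_top.2 (by simp)
  | succ k ih =>
    rw [wt]
    exact ENNReal.mul_ne_top (ENNReal.mul_ne_top (ENNReal.mul_ne_top ENNReal.coe_ne_top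
      (ENNReal.natCast_ne_top _)) ih) (ENNReal.inv_ne_top.2 (by simp))

lemma wt_rec (μ : ℝ≥0) (s : ℕ) (hs : s ≤ 4) :
    (1 + 4 * (μ : ℝ≥0∞)) * wt μ s =
      (if s = 0 then 1 else 0) + μ * ((s : ℝ≥0∞) * (wt μ s + wt μ (s - 1))) := by
  rcases s with _ | k
  · rw [wt, ENNReal.mul_inv_cancel (by simp) (by finiteness)]
    simp
  · have hk : k ≤ 3 := by omega
    have h1 : (1 + (3 - k : ℕ) * (μ : ℝ≥0∞)) * wt μ (k + 1) = (μ : ℝ≥0∞) * (k + 1 : ℕ) * wt μ k := by
      rw [wt, mul_comm, mul_assoc, ENNReal.inv_mul_cancel (by simp) (by finiteness), mul_one]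
    have h2 : (4 : ℝ≥0∞) = ((3 - k : ℕ) : ℝ≥0∞) + ((k + 1 : ℕ) : ℝ≥0∞) := by
      rw [← Nat.cast_add, show 3 - k + (k + 1) = 4 by omega]; norm_num
    rw [h2, add_mul ((3 - k : ℕ) : ℝ≥0∞), ← add_assoc, add_mul _ _ (wt μ (k + 1)), h1]
    simp only [Nat.add_one_ne_zero, if_false, zero_add, Nat.add_sub_cancel]
    ring

/-- sum against the weights -/
noncomputable def av (μ : ℝ≥0) (g : Dir → ℝ≥0∞) : ℝ≥0∞ := ∑ S : Dir, wt μ S.card * g S

lemma av_insert (μ : ℝ≥0) (g : Dir → ℝ≥0∞) (y : Fin 4) :
    av μ (fun S => g (insert y S)) =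
      ∑ S : Dir, if y ∈ S then (wt μ S.card + wt μ (S.card - 1)) * g S else 0 := by
  unfold av
  have h1 : ∀ f : Dir → ℝ≥0∞, ∑ S : Dir, f S =
      ∑ S : Dir, (if y ∈ S then f S else 0) + ∑ S : Dir, (if y ∉ S then f S else 0) := by
    intro f
    rw [← Finset.sum_add_distrib]
    refine Finset.sum_congr rfl fun S _ => ?_
    by_cases h : y ∈ S <;> simp [h]
  rw [h1]
  have h2 : ∑ S : Dir, (if y ∉ S then wt μ S.card * g (insert y S) else 0) =
      ∑ S : Dir, (if y ∈ S then wt μ (S.card - 1) * g S else 0) := by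
    rw [← Finset.sum_filter, ← Finset.sum_filter]
    refine Finset.sum_bij' (fun S _ => insert y S) (fun S _ => S.erase y) ?_ ?_ ?_ ?_ ?_
    · intro S hS; simp
    · intro S hS; simp
    · intro S hS
      simp only [Finset.mem_filter, Finset.mem_univ, true_and] at hS
      exact Finset.erase_insert hS
    · intro S hS
      simp only [Finset.mem_filter, Finset.mem_univ, true_and] at hS
      exact Finset.insert_erase hS
    · intro S hS
      simp only [Finset.mem_filter, Finset.mem_univ, true_and] at hS
      rw [Finset.card_insert_of_notMem hS]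
      simp
  rw [h2, ← Finset.sum_add_distrib]
  refine Finset.sum_congr rfl fun S _ => ?_
  by_cases h : y ∈ S
  · simp only [h, if_true, Finset.insert_eq_of_mem, not_true_eq_false, if_false]
    ring
  · simp [h]

/-- The one-step identity for the law of the out-neighbourhood. -/
lemma av_identity (μ : ℝ≥0) (g : Dir → ℝ≥0∞) :
    (1 + 4 * (μ : ℝ≥0∞)) * av μ g = g ∅ + μ * ∑ y : Fin 4, av μ (fun S => g (insert y S)) := by
  have h1 : ∑ y : Fin 4, av μ (fun S => g (insert y S)) =
      ∑ S : Dir, (S.card : ℝ≥0∞) * (wt μ S.card + wt μ (S.card - 1)) * g S := by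
    simp only [av_insert]
    rw [Finset.sum_comm]
    refine Finset.sum_congr rfl fun S _ => ?_
    rw [← Finset.sum_filter, Finset.sum_const, nsmul_eq_mul]
    simp [mul_assoc]
  rw [h1]
  unfold av
  rw [Finset.mul_sum, Finset.mul_sum]
  have h2 : g ∅ = ∑ S : Dir, (if S.card = 0 then 1 else 0) * g S := by
    rw [Finset.sum_eq_single ∅]
    · simp
    · intro S _ hS
      simp [hS]
    · simp
  rw [h2, ← Finset.sum_add_distrib]
  refine Finset.sum_congr rfl fun S _ => ?_
  have h3 := wt_rec μ S.card (by simpa using Finset.card_le_univ S)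
  rw [← mul_assoc, h3]
  ring

lemma av_one (μ : ℝ≥0) : av μ (fun _ => 1) = 1 := by
  have h := av_identity μ (fun _ => 1)
  simp only [Finset.sum_const, Finset.card_univ, Fintype.card_fin, nsmul_eq_mul] at h
  have hfin : av μ (fun _ => 1) ≠ ⊤ := by
    unfold av
    exact ENNReal.sum_ne_top.2 fun S _ => ENNReal.mul_ne_top (wt_ne_top _ _) (by simp)
  have h4 : (μ : ℝ≥0∞) * (((4 : ℕ) : ℝ≥0∞) * av μ (fun _ => 1)) ≠ ⊤ := by
    finiteness
  have h5 : av μ (fun _ => 1) + (μ : ℝ≥0∞) * (((4 : ℕ) : ℝ≥0∞) * av μ (fun _ => 1)) =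
      1 + (μ : ℝ≥0∞) * (((4 : ℕ) : ℝ≥0∞) * av μ (fun _ => 1)) := by
    rw [← h]; push_cast; ring
  exact (ENNReal.add_left_inj h4).1 h5

/-- the law of the out-neighbourhood -/
noncomputable def nu (μ : ℝ≥0) : Measure Dir := ∑ S : Dir, wt μ S.card • Measure.dirac S

lemma lintegral_nu (μ : ℝ≥0) (g : Dir → ℝ≥0∞) : ∫⁻ S, g S ∂(nu μ) = av μ g := by
  unfold nu av
  rw [lintegral_finsetSum_measure]
  refine Finset.sum_congr rfl fun S _ => ?_
  rw [lintegral_smul_measure, lintegral_dirac]
  rfl

instance nu_prob (μ : ℝ≥0) : IsProbabilityMeasure (nu μ) :=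
  ⟨by rw [← lintegral_one, lintegral_nu, av_one]⟩

/-- the product measure -/
noncomputable def PP (μ : ℝ≥0) : Measure (V → Dir) := Measure.infinitePi (fun _ : V => nu μ)

instance PP_prob (μ : ℝ≥0) : IsProbabilityMeasure (PP μ) := by unfold PP; infer_instance

lemma measurable_upd (x : V) : Measurable (fun q : Dir × (V → Dir) => Function.update q.2 x q.1) := by
  rw [measurable_pi_iff]
  intro y
  by_cases h : y = x
  · subst h; simp only [Function.update_self]; exact measurable_fst
  · simp only [Function.update_of_ne h]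
    exact (measurable_pi_apply y).comp measurable_snd

lemma map_upd (μ : ℝ≥0) (x : V) :
    ((nu μ).prod (PP μ)).map (fun q => Function.update q.2 x q.1) = PP μ := by
  unfold PP
  apply Measure.eq_infinitePi
  intro s t ht
  rw [Measure.map_apply (measurable_upd x) (MeasurableSet.pi s.countable_toSet fun i _ => ht i)]
  by_cases hx : x ∈ s
  · have e : (fun q : Dir × (V → Dir) => Function.update q.2 x q.1) ⁻¹' (Set.pi s t) =
        (t x) ×ˢ (Set.pi (s.erase x : Finset V) t) := by
      ext q
      simp only [Set.mem_preimage, Set.mem_pi, Set.mem_prod, Finset.mem_coe]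
      constructor
      · intro h
        refine ⟨by simpa using h x hx, fun i hi => ?_⟩
        have := h i (Finset.mem_of_mem_erase hi)
        rwa [Function.update_of_ne (Finset.ne_of_mem_erase hi)] at this
      · rintro ⟨h1, h2⟩ i hi
        by_cases hix : i = x
        · subst hix; simpa using h1
        · rw [Function.update_of_ne hix]
          exact h2 i (Finset.mem_erase.2 ⟨hix, hi⟩)
    rw [e, Measure.prod_prod, Measure.infinitePi_pi _ (fun i _ => ht i), 
      Finset.mul_prod_erase s (fun i => nu μ (t i)) hx]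
  · have e : (fun q : Dir × (V → Dir) => Function.update q.2 x q.1) ⁻¹' (Set.pi s t) =
        Set.univ ×ˢ (Set.pi s t) := by
      ext q
      simp only [Set.mem_preimage, Set.mem_pi, Set.mem_prod, Finset.mem_coe, Set.mem_univ, true_and]
      refine forall₂_congr fun i hi => ?_
      have hix : i ≠ x := fun h => hx (h ▸ hi)
      rw [Function.update_of_ne hix]
    rw [e, Measure.prod_prod, Measure.infinitePi_pi _ (fun i _ => ht i), measure_univ, one_mul]

/-- Resampling one coordinate. -/
lemma resample (μ : ℝ≥0) (x : V) {A : Set (V → Dir)} (hA : MeasurableSet A) :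
    PP μ A = av μ (fun S => PP μ {ω | Function.update ω x S ∈ A}) := by
  conv_lhs => rw [← map_upd μ x, Measure.map_apply (measurable_upd x) hA]
  rw [Measure.prod_apply (measurable_upd x hA), ← lintegral_nu]
  rfl

/-- Vertices reached from `R` avoiding `B`. -/
inductive Cl (ω : V → Dir) (R B : Set V) : V → Prop
  | base (x : V) : x ∈ R → Cl ω R B x
  | step (x : V) (i : Fin 4) : Cl ω R B x → i ∈ ω x → x + vec i ∉ B → Cl ω R B (x + vec i)

lemma vec_ne (i : Fin 4) (x : V) : x + vec i ≠ x := by
  intro h
  have h1 : vec i = 0 := by simpa using h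
  revert h1
  fin_cases i <;> simp [vec]

lemma Cl_notMem {ω : V → Dir} {R B : Set V} (h : Disjoint R B) {y : V} (hy : Cl ω R B y) : y ∉ B := by
  cases hy with
  | base x hx => exact fun hb => Set.disjoint_left.1 h hx hb
  | step x i _ _ hb => exact hb

/-- The final set. -/
def FS (ω : V → Dir) (R B : Set V) : Set V := {y | Cl ω R B y} ∪ B

/-- turning a red vertex blue decreases the final set -/
lemma FS_erase {ω : V → Dir} {R B : Set V} {x : V} (hx : x ∈ R) :
    FS ω (R \ {x}) (insert x B) ⊆ FS ω R B := by
  intro y hy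
  rcases hy with hy | hy
  · left
    induction hy with
    | base y hy => exact Cl.base y hy.1
    | step y i _ hi hb ih =>
      exact Cl.step y i ih hi (fun h => hb (Set.mem_insert_of_mem _ h))
  · rcases hy with rfl | hy
    · left; exact Cl.base _ hx
    · right; exact hy

/-- exploring the out-neighbourhood of a red vertex -/
lemma FS_explore {ω : V → Dir} {R B : Set V} {x : V} (hx : x ∈ R) (hRB : Disjoint R B) :
    FS ω R B = FS ω ((R \ {x}) ∪ {y | y ∉ R ∧ y ∉ B ∧ ∃ i ∈ ω x, y = x + vec i}) (insert x B) := by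
  have hxB : x ∉ B := fun h => Set.disjoint_left.1 hRB hx h
  ext y
  constructor
  · rintro (hy | hy)
    · induction hy with
      | base y hy =>
        by_cases h : y = x
        · right; left; exact h
        · left; exact Cl.base _ (Or.inl ⟨hy, h⟩)
      | step y i hc hi hb ih =>
        by_cases hyx : y = x
        · subst hyx
          by_cases hR : y + vec i ∈ R
          · left; exact Cl.base _ (Or.inl ⟨hR, vec_ne i y⟩)
          · left; exact Cl.base _ (Or.inr ⟨hR, hb, i, hi, rfl⟩)
        · rcases ih with ih | ih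
          · by_cases hz : y + vec i = x
            · right; left; exact hz
            · left
              refine Cl.step y i ih hi ?_
              rintro (h | h)
              · exact hz h
              · exact hb h
          · rcases ih with h | h
            · exact absurd h hyx
            · exact absurd h (Cl_notMem hRB hc)
    · right; right; exact hy
  · rintro (hy | hy)
    · left
      induction hy with
      | base y hy =>
        rcases hy with hy | ⟨_, hb, i, hi, rfl⟩
        · exact Cl.base _ hy.1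
        · exact Cl.step x i (Cl.base _ hx) hi hb
      | step y i _ hi hb ih =>
        exact Cl.step y i ih hi (fun h => hb (Set.mem_insert_of_mem _ h))
    · rcases hy with rfl | hy
      · left; exact Cl.base _ hx
      · right; exact hy

/-- the final set does not depend on the out-neighbourhood of a blue vertex -/
lemma FS_update {ω : V → Dir} {R B : Set V} {x : V} (hx : x ∈ B) (hRB : Disjoint R B) (S : Dir) :
    FS (Function.update ω x S) R B = FS ω R B := by
  have key : ∀ ω ω' : V → Dir, (∀ y, y ∉ B → ω y = ω' y) → {y | Cl ω R B y} ⊆ {y | Cl ω' R B y} := by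
    intro ω ω' h y hy
    have hy' : Cl ω R B y := hy
    show Cl ω' R B y
    clear hy
    induction hy' with
    | base y hy => exact Cl.base _ hy
    | step y i hc hi hb ih =>
      exact Cl.step y i ih (by rw [← h y (Cl_notMem hRB hc)]; exact hi) hb
  unfold FS
  congr 1
  apply Set.Subset.antisymm
  · apply key
    intro y hy
    rw [Function.update_of_ne]
    rintro rfl; exact hy hx
  · apply key
    intro y hy
    rw [Function.update_of_ne]
    rintro rfl; exact hy hx

end Q288.CEC
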