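import Mathlib
import Pool.Agent.Q288.CEC.Perc

/-!
# One-step identity for probabilities of increasing events of the final set
-/

set_option autoImplicit false
set_option linter.unusedSectionVars false

namespace Q288.CEC

open MeasureTheory
open scoped ENNReal NNReal
open Q291.OP (vec)

/-- the four neighbours of a vertex of `ℤ²` -/
def nb (x : ℤ × ℤ) : Finset (ℤ × ℤ) := {x + (1, 0), x + (0, 1), x + (-1, 0), x + (0, -1)}

lemma vec_injective (x : V) : Function.Injective (fun i : Fin 4 => x + vec i) := by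
  intro i j h
  have h1 : vec i = vec j := by simpa using h
  revert h1
  fin_cases i <;> fin_cases j <;> simp [vec]

lemma nb_eq (x : V) : nb x = Finset.univ.image (fun i : Fin 4 => x + vec i) := by
  ext y
  simp only [nb, Finset.mem_insert, Finset.mem_singleton, Finset.mem_image, Finset.mem_univ,
    true_and]
  constructor
  · rintro (h | h | h | h)
    · exact ⟨0, by rw [h]; simp [vec]⟩
    · exact ⟨1, by rw [h]; simp [vec]⟩
    · exact ⟨2, by rw [h]; simp [vec]⟩
    · exact ⟨3, by rw [h]; simp [vec]⟩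
  · rintro ⟨i, rfl⟩
    fin_cases i <;> simp [vec]

lemma nb_card (x : V) : (nb x).card = 4 := by
  rw [nb_eq, Finset.card_image_of_injective _ (vec_injective x)]
  simp

lemma sum_nb (x : V) (F : V → ℝ≥0∞) : ∑ i : Fin 4, F (x + vec i) = ∑ y ∈ nb x, F y := by
  rw [nb_eq, Finset.sum_image (fun i _ j _ h => vec_injective x h)]

/-- the probability of an event of the final set -/
noncomputable def qq (Φ : Set V → Prop) (μ : ℝ≥0) (R B : Finset V) : ℝ≥0∞ :=
  PP μ {ω | Φ (FS ω (R : Set V) (B : Set V))}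

def MeasΦ (Φ : Set V → Prop) : Prop := ∀ R B : Finset V,
  MeasurableSet {ω : V → Dir | Φ (FS ω (R : Set V) (B : Set V))}

lemma qq_le_one (Φ : Set V → Prop) (μ : ℝ≥0) (R B : Finset V) : qq Φ μ R B ≤ 1 := prob_le_one

lemma qq_erase {Φ : Set V → Prop} (hΦ : ∀ S T, S ⊆ T → Φ S → Φ T) (μ : ℝ≥0) {R B : Finset V} {x : V}
    (hx : x ∈ R) : qq Φ μ (R.erase x) (insert x B) ≤ qq Φ μ R B := by
  unfold qq
  apply measure_mono
  intro ω hω
  refine hΦ _ _ ?_ hω
  rw [Finset.coe_erase, Finset.coe_insert]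
  exact FS_erase (by exact_mod_cast hx)

/-- the red set after the exploration of `x` -/
def newR (x : V) (R B : Finset V) (S : Dir) : Finset V :=
  (R.erase x) ∪ ((S.image (fun i => x + vec i)) \ (R ∪ B))

lemma newR_disj {x : V} {R B : Finset V} (hRB : Disjoint R B) (S : Dir) :
    Disjoint (newR x R B S) (insert x B) := by
  rw [Finset.disjoint_left] at hRB ⊢
  intro y hy
  simp only [newR, Finset.mem_union, Finset.mem_erase, Finset.mem_sdiff, Finset.mem_image,
    not_or] at hy
  simp only [Finset.mem_insert, not_or]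
  rcases hy with ⟨h1, h2⟩ | ⟨⟨i, _, rfl⟩, h3, h4⟩
  · exact ⟨h1, hRB h2⟩
  · exact ⟨vec_ne i x, h4⟩

lemma qq_eq_av {Φ : Set V → Prop} (hM : MeasΦ Φ) (μ : ℝ≥0) {R B : Finset V} {x : V} (hx : x ∈ R)
    (hRB : Disjoint R B) :
    qq Φ μ R B = av μ (fun S => qq Φ μ (newR x R B S) (insert x B)) := by
  unfold qq
  rw [resample μ x (hM R B)]
  congr 1
  ext S
  congr 1
  ext ω
  simp only [Set.mem_ofPred_eq]
  have h1 : FS (Function.update ω x S) (R : Set V) (B : Set V) =
      FS ω (newR x R B S : Finset V) (insert x B : Finset V) := by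
    rw [FS_explore (x := x) (by exact_mod_cast hx) (by exact_mod_cast hRB)]
    have e : ((R : Set V) \ {x}) ∪ {y | y ∉ (R : Set V) ∧ y ∉ (B : Set V) ∧
        ∃ i ∈ Function.update ω x S x, y = x + vec i} = ((newR x R B S : Finset V) : Set V) := by
      ext y
      simp only [newR, Function.update_self, Set.mem_union, Set.mem_sdiff, Finset.mem_coe,
        Set.mem_singleton_iff, Set.mem_ofPred_eq, Finset.coe_union, Finset.coe_erase,
        Finset.coe_sdiff, Finset.coe_image, Set.mem_image, not_or]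
      constructor
      · rintro (h | ⟨h1, h2, i, hi, rfl⟩)
        · left; exact h
        · right; exact ⟨⟨i, hi, rfl⟩, h1, h2⟩
      · rintro (h | ⟨⟨i, hi, rfl⟩, h1, h2⟩)
        · left; exact h
        · right; exact ⟨h1, h2, i, hi, rfl⟩
    rw [e, ← Finset.coe_insert, FS_update (by simp)]
    exact_mod_cast newR_disj hRB S
  rw [h1]

/-- The one-step identity. -/
theorem qq_step {Φ : Set V → Prop} (hM : MeasΦ Φ) (μ : ℝ≥0) {R B : Finset V} {x : V} (hx : x ∈ R)
    (hRB : Disjoint R B) :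
    (1 + ((nb x \ (R ∪ B)).card : ℝ≥0∞) * μ) * qq Φ μ R B =
      qq Φ μ (R.erase x) (insert x B) + μ * ∑ y ∈ nb x \ (R ∪ B), qq Φ μ (insert y R) B := by
  classical
  have hxB : x ∉ B := Finset.disjoint_left.1 hRB hx
  set g : Dir → ℝ≥0∞ := fun S => qq Φ μ (newR x R B S) (insert x B) with hg
  have h0 : qq Φ μ R B = av μ g := qq_eq_av hM μ hx hRB
  have h1 := av_identity μ g
  have h2 : g ∅ = qq Φ μ (R.erase x) (insert x B) := by
    simp [hg, newR]
  have h3 : ∀ i : Fin 4, av μ (fun S => g (insert i S)) =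
      (fun y => if y ∈ R ∪ B then qq Φ μ R B else qq Φ μ (insert y R) B) (x + vec i) := by
    intro i
    simp only
    by_cases hi : x + vec i ∈ R ∪ B
    · rw [if_pos hi, h0]
      congr 1
      ext S
      simp only [hg]
      congr 1
      unfold newR
      rw [Finset.image_insert, Finset.insert_sdiff_of_mem _ hi]
    · rw [if_neg hi]
      have hyR : x + vec i ∉ R := fun h => hi (Finset.mem_union_left _ h)
      have hyB : x + vec i ∉ B := fun h => hi (Finset.mem_union_right _ h)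
      have hyx : x + vec i ≠ x := vec_ne i x
      have hd : Disjoint (insert (x + vec i) R) B := by
        rw [Finset.disjoint_insert_left]; exact ⟨hyB, hRB⟩
      rw [qq_eq_av hM μ (x := x) (Finset.mem_insert_of_mem hx) hd]
      congr 1
      ext S
      simp only [hg]
      congr 1
      ext z
      simp only [newR, Finset.mem_union, Finset.mem_erase, Finset.mem_sdiff, Finset.mem_image,
        Finset.mem_insert, not_or]
      constructor
      · rintro (⟨hzx, hz⟩ | ⟨⟨j, hj | hj, rfl⟩, hz1, hz2⟩)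
        · left; exact ⟨hzx, Or.inr hz⟩
        · subst hj; left; exact ⟨hyx, Or.inl rfl⟩
        · by_cases hji : x + vec j = x + vec i
          · left; exact ⟨by rw [hji]; exact hyx, Or.inl hji⟩
          · right; exact ⟨⟨j, hj, rfl⟩, ⟨hji, hz1⟩, hz2⟩
      · rintro (⟨hzx, rfl | hz⟩ | ⟨⟨j, hj, rfl⟩, ⟨hz0, hz1⟩, hz2⟩)
        · right; exact ⟨⟨i, Or.inl rfl, rfl⟩, hyR, hyB⟩
        · left; exact ⟨hzx, hz⟩
        · right; exact ⟨⟨j, Or.inr hj, rfl⟩, hz1, hz2⟩
  rw [Finset.sum_congr rfl (fun i _ => h3 i),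
    sum_nb x (fun y => if y ∈ R ∪ B then qq Φ μ R B else qq Φ μ (insert y R) B), ← h0, h2] at h1
  have h4 : ∑ y ∈ nb x, (if y ∈ R ∪ B then qq Φ μ R B else qq Φ μ (insert y R) B) =
      ((nb x ∩ (R ∪ B)).card : ℝ≥0∞) * qq Φ μ R B + ∑ y ∈ nb x \ (R ∪ B), qq Φ μ (insert y R) B := by
    rw [Finset.sum_ite, Finset.sum_const, nsmul_eq_mul, Finset.filter_mem_eq_inter,
      Finset.filter_notMem_eq_sdiff]
  rw [h4] at h1
  have h5 : ((nb x ∩ (R ∪ B)).card : ℝ≥0∞) + ((nb x \ (R ∪ B)).card : ℝ≥0∞) = 4 := by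
    rw [← Nat.cast_add, Finset.card_inter_add_card_sdiff, nb_card]; norm_num
  have hq : qq Φ μ R B ≠ ⊤ := ne_top_of_le_ne_top ENNReal.one_ne_top (qq_le_one _ _ _ _)
  have h6 : (μ : ℝ≥0∞) * (((nb x ∩ (R ∪ B)).card : ℝ≥0∞) * qq Φ μ R B) ≠ ⊤ := by finiteness
  refine (ENNReal.add_left_inj h6).1 ?_
  calc _ = (1 + 4 * (μ : ℝ≥0∞)) * qq Φ μ R B := by rw [← h5]; ring
    _ = _ := by rw [h1]; ring

end Q288.CEC
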