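import Mathlib
import Pool.Agent.W845.CP.PL
import Pool.Agent.Q288.CEC.Step

/-!
# Chase-escape with conversion on `ℤ²`

The process started from one red vertex is a Markov jump process whose states are pairs of finite
sets (red vertices, blue vertices); all other vertices are white.
-/

set_option autoImplicit false
set_option linter.unusedSectionVars false

namespace Q288.CEC

open MeasureTheory Pool.Agent.W845.CP
open scoped ENNReal

/-- A configuration: the red vertices and the blue vertices; all other vertices are white. -/
structure St where
  red : Finset (ℤ × ℤ)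
  blue : Finset (ℤ × ℤ)

instance : MeasurableSpace St := ⊤
instance : DiscreteMeasurableSpace St := ⟨fun _ => trivial⟩
instance : Countable St :=
  Function.Injective.countable (f := fun s : St => (s.red, s.blue)) (by
    rintro ⟨a, b⟩ ⟨c, d⟩ h
    simp only [Prod.mk.injEq] at h
    rw [h.1, h.2])

/-- The jump rates out of `s`: every red vertex `x` turns blue at rate `al` (conversion) plus the
number of its blue neighbours (predation at rate one along every blue-red edge); along every edge
from a red vertex `x` to a white vertex `y`, the white vertex turns red at rate `lam`. -/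
noncomputable def rates (lam al : ℝ) (s : St) : Measure St :=
  ∑ x ∈ s.red, ((ENNReal.ofReal al + ((nb x ∩ s.blue).card : ℝ≥0∞)) •
      Measure.dirac (St.mk (s.red.erase x) (insert x s.blue)) +
    ENNReal.ofReal lam • ∑ y ∈ nb x \ (s.red ∪ s.blue), Measure.dirac (St.mk (insert y s.red) s.blue))

open Classical in
/-- The jump kernel: if no transition is possible, there are only dummy jumps (at rate one). -/
noncomputable def jump (lam al : ℝ) (s : St) : Measure St :=
  if rates lam al s Set.univ = 0 then Measure.dirac s else rates lam al s

lemma lintegral_rates (lam al : ℝ) (s : St) (f : St → ℝ≥0∞) :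
    ∫⁻ t, f t ∂(rates lam al s) =
      ∑ x ∈ s.red, ((ENNReal.ofReal al + ((nb x ∩ s.blue).card : ℝ≥0∞)) *
        f (St.mk (s.red.erase x) (insert x s.blue)) +
      ENNReal.ofReal lam * ∑ y ∈ nb x \ (s.red ∪ s.blue), f (St.mk (insert y s.red) s.blue)) := by
  unfold rates
  rw [lintegral_finsetSum_measure]
  refine Finset.sum_congr rfl fun x _ => ?_
  rw [lintegral_add_measure, lintegral_smul_measure, lintegral_smul_measure,
    lintegral_finsetSum_measure]
  simp only [lintegral_dirac, smul_eq_mul]

lemma rates_univ (lam al : ℝ) (s : St) :
    rates lam al s Set.univ = ∑ x ∈ s.red, ((ENNReal.ofReal al + ((nb x ∩ s.blue).card : ℝ≥0∞)) +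
      ENNReal.ofReal lam * ((nb x \ (s.red ∪ s.blue)).card : ℝ≥0∞)) := by
  rw [← lintegral_one, lintegral_rates]
  simp

lemma goodJ_jump (lam al : ℝ) : GoodJ (jump lam al) := by
  intro s
  unfold jump
  by_cases h : rates lam al s Set.univ = 0
  · rw [if_pos h]; simp
  · rw [if_neg h]
    refine ⟨h, ?_⟩
    rw [rates_univ]
    exact ENNReal.sum_ne_top.2 fun x _ => by finiteness

/-- The law of chase-escape with conversion on `ℤ²` with infection rate `lam` and conversion rate
`al`, started from one red vertex at the origin: the law of the sequence `(Y k, T k)`, where `Y k`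
is the configuration after `k` jumps and `T k` is the time of the `k`-th jump. -/
noncomputable def ceLaw (lam al : ℝ) : Measure (ℕ → St × ℝ) :=
  law (jump lam al) (goodJ_jump lam al) ⟨{0}, ∅⟩

open Classical in
/-- The number of blue vertices once the process fixates; it is `∞` if the process never fixates.
The process fixates at the first `k` at which no red vertex is left. -/
noncomputable def X (ω : ℕ → St × ℝ) : ℕ∞ :=
  if h : ∃ k, (ω k).1.red = ∅ then ((ω (Nat.find h)).1.blue.card : ℕ∞) else ⊤

/-- The critical infection rate. -/
noncomputable def lamc (al : ℝ) : ℝ :=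
  sSup {lam : ℝ | 0 < lam ∧ ∀ᵐ ω ∂(ceLaw lam al), X ω < ⊤}

end Q288.CEC
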