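import Mathlib
import Pool.Agent.Q288.CEC.Step
import Pool.Agent.Q291.OP.Reach
import Pool.Agent.Q291.OP.Prob

/-!
# Measurability, the percolation probability, and its positivity for large `μ`
-/

set_option autoImplicit false
set_option linter.unusedSectionVars false

namespace Q288.CEC

open MeasureTheory Filter Topology
open scoped ENNReal NNReal
open Q291.OP (vec)

/-- `k`-step approximation of the cluster -/
def Clk (ω : V → Dir) (R B : Set V) : ℕ → Set V
  | 0 => R
  | k + 1 => Clk ω R B k ∪ {y | y ∉ B ∧ ∃ x, x ∈ Clk ω R B k ∧ ∃ i, i ∈ ω x ∧ y = x + vec i}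

lemma Cl_iff (ω : V → Dir) (R B : Set V) (y : V) : Cl ω R B y ↔ ∃ k, y ∈ Clk ω R B k := by
  constructor
  · intro h
    induction h with
    | base y hy => exact ⟨0, hy⟩
    | step y i _ hi hb ih =>
      obtain ⟨k, hk⟩ := ih
      exact ⟨k + 1, Or.inr ⟨hb, y, hk, i, hi, rfl⟩⟩
  · rintro ⟨k, hk⟩
    induction k generalizing y with
    | zero => exact Cl.base _ hk
    | succ k ih =>
      rcases hk with hk | ⟨hb, x, hx, i, hi, rfl⟩
      · exact ih y hk
      · exact Cl.step x i (ih x hx) hi hb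

lemma meas_mem_dir (x : V) (i : Fin 4) : Measurable (fun ω : V → Dir => i ∈ ω x) :=
  (measurable_of_countable (fun S : Dir => i ∈ S)).comp (measurable_pi_apply x)

lemma meas_Clk (R B : Set V) (k : ℕ) (y : V) : Measurable (fun ω : V → Dir => y ∈ Clk ω R B k) := by
  induction k generalizing y with
  | zero => exact measurable_const
  | succ k ih =>
    show Measurable (fun ω : V → Dir => y ∈ Clk ω R B k ∨
      (y ∉ B ∧ ∃ x, x ∈ Clk ω R B k ∧ ∃ i, i ∈ ω x ∧ y = x + vec i))
    refine (ih y).or (measurable_const.and (Measurable.exists fun x => (ih x).and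
      (Measurable.exists fun i => (meas_mem_dir x i).and measurable_const)))

lemma meas_FS (R B : Set V) (y : V) : Measurable (fun ω : V → Dir => y ∈ FS ω R B) := by
  show Measurable (fun ω : V → Dir => Cl ω R B y ∨ y ∈ B)
  refine Measurable.or ?_ measurable_const
  simp only [Cl_iff]
  exact Measurable.exists fun k => meas_Clk R B k y

/-- at least `n` vertices -/
def Big (n : ℕ) (S : Set V) : Prop := (n : ℕ∞) ≤ S.encard

lemma Big_iff (n : ℕ) (S : Set V) : Big n S ↔ ∃ F : Finset V, F.card = n ∧ ∀ y ∈ F, y ∈ S := by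
  unfold Big
  constructor
  · intro h
    obtain ⟨T, hT, hTn⟩ := Set.exists_subset_encard_eq h
    have hfin : T.Finite := Set.finite_of_encard_eq_coe hTn
    refine ⟨hfin.toFinset, ?_, fun y hy => hT (hfin.mem_toFinset.1 hy)⟩
    rw [hfin.encard_eq_coe_toFinset_card] at hTn
    exact_mod_cast hTn
  · rintro ⟨F, hF, h⟩
    rw [← hF, ← Set.encard_coe_eq_coe_finsetCard]
    exact Set.encard_le_encard (fun y hy => h y hy)

lemma Big_mono (n : ℕ) (S T : Set V) (h : S ⊆ T) (hS : Big n S) : Big n T :=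
  le_trans hS (Set.encard_le_encard h)

lemma meas_Big (n : ℕ) : MeasΦ (Big n) := by
  intro R B
  rw [measurableSet_setOf]
  simp only [Big_iff]
  refine Measurable.exists fun F => measurable_const.and ?_
  exact Measurable.forall fun y => Measurable.imp measurable_const (meas_FS _ _ y)

lemma inf_iff (S : Set V) : S.Infinite ↔ ∀ n, Big n S := by
  unfold Big
  rw [← Set.encard_eq_top_iff]
  constructor
  · intro h n; rw [h]; exact le_top
  · intro h
    by_contra hc
    obtain ⟨m, hm⟩ := ENat.ne_top_iff_exists.1 hc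
    have := h (m + 1)
    rw [← hm] at this
    have h2 : m + 1 ≤ m := by exact_mod_cast this
    omega

lemma inf_mono (S T : Set V) (h : S ⊆ T) (hS : S.Infinite) : T.Infinite := hS.mono h

lemma meas_inf : MeasΦ Set.Infinite := by
  intro R B
  rw [measurableSet_setOf]
  simp only [inf_iff]
  refine Measurable.forall fun n => ?_
  have := meas_Big n R B
  rwa [measurableSet_setOf] at this

/-- the percolation probability -/
noncomputable def theta (μ : ℝ≥0) : ℝ≥0∞ := qq Set.Infinite μ {0} ∅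

lemma tendsto_qq_Big (μ : ℝ≥0) :
    Tendsto (fun n => qq (Big n) μ {0} ∅) atTop (𝓝 (theta μ)) := by
  have h : {ω : V → Dir | Set.Infinite (FS ω (({0} : Finset V) : Set V) ((∅ : Finset V) : Set V))} =
      ⋂ n, {ω | Big n (FS ω (({0} : Finset V) : Set V) ((∅ : Finset V) : Set V))} := by
    ext ω
    simp only [inf_iff, Set.mem_ofPred_eq, Set.mem_iInter]
  unfold theta qq
  rw [h]
  refine tendsto_measure_iInter_atTop (fun n => (meas_Big n _ _).nullMeasurableSet) ?_
    ⟨0, measure_ne_top _ _⟩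
  intro n m hnm ω hω
  simp only [Set.mem_ofPred_eq] at hω ⊢
  exact le_trans (by exact_mod_cast hnm) hω

/-! ### Positivity for large `μ` -/

/-- all four directions -/
def good (ω : V → Dir) (z : V) : Prop := ω z = Finset.univ

lemma fwd_sub (ω : V → Dir) (h0 : good ω (0, 0)) :
    Q291.OP.fwd (good ω) (0, 0) ⊆ FS ω {0} ∅ := by
  intro w hw
  have h1 : Cl ω {0} ∅ w ∧ good ω w := by
    induction hw with
    | refl => exact ⟨Cl.base _ rfl, h0⟩
    | @tail b c _ hs ih =>
      refine ⟨?_, hs.2⟩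
      rcases hs.1 with h | h
      · have := Cl.step (ω := ω) (R := {0}) (B := ∅) b 0 ih.1 (by rw [ih.2]; simp) (by simp)
        have e : b + vec 0 = c := by rw [h]; simp [vec]
        rwa [e] at this
      · have := Cl.step (ω := ω) (R := {0}) (B := ∅) b 1 ih.1 (by rw [ih.2]; simp) (by simp)
        have e : b + vec 1 = c := by rw [h]; simp [vec]
        rwa [e] at this
  exact Or.inl h1.1

lemma bad_prob (μ : ℝ≥0) (q : ℝ≥0∞) (hq : nu μ {S | S ≠ Finset.univ} ≤ q) (T : Finset V) :
    PP μ {ω | ∀ z ∈ T, ¬ good ω z} ≤ q ^ T.card := by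
  have h : {ω : V → Dir | ∀ z ∈ T, ¬ good ω z} =
      (T : Set V).pi (fun _ => {S : Dir | S ≠ Finset.univ}) := by
    ext c
    simp [Set.mem_pi, good]
  rw [h]
  unfold PP
  rw [Measure.infinitePi_pi _ (fun _ _ => DiscreteMeasurableSpace.forall_measurableSet _),
    Finset.prod_const]
  gcongr

lemma theta_pos_of (μ : ℝ≥0) (hq : nu μ {S | S ≠ Finset.univ} ≤ (16 : ℝ≥0∞)⁻¹ ^ 4) :
    0 < theta μ := by
  rw [pos_iff_ne_zero]
  intro h0
  unfold theta qq at h0
  have hb := Q291.OP.union_bound (PP μ) (fun z => {ω | ¬ good ω z}) _ hq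
    (fun S => bad_prob μ _ le_rfl S |>.trans (by gcongr))
  have hbad := bad_prob μ _ hq {(0, 0)}
  have hcov : (Set.univ : Set (V → Dir)) ⊆
      {ω | Set.Infinite (FS ω (({0} : Finset V) : Set V) ((∅ : Finset V) : Set V))} ∪
      ({ω | ∃ n : ℕ, 1 ≤ n ∧ ∃ w : ℕ → Fin 4, (∀ z ∈ Q291.OP.cells n w, ω ∈ {ω | ¬ good ω z}) ∧
      n ≤ 4 * (Q291.OP.cells n w).card} ∪ {ω | ∀ z ∈ ({(0, 0)} : Finset V), ¬ good ω z}) := by
    intro ω _
    by_cases hg : good ω (0, 0)
    · by_cases hf : (Q291.OP.fwd (good ω) (0, 0)).Finite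
      · right; left
        exact Q291.OP.fwd_contour hf
      · left
        have := inf_mono _ _ (fwd_sub ω hg) hf
        simpa using this
    · right; right
      simpa using hg
  have h1 : (1 : ℝ≥0∞) ≤ 0 + (3⁻¹ + ((16 : ℝ≥0∞)⁻¹ ^ 4) ^ 1) := by
    calc (1 : ℝ≥0∞) = PP μ Set.univ := measure_univ.symm
      _ ≤ _ := measure_mono hcov
      _ ≤ _ := measure_union_le _ _
      _ ≤ _ := by
        gcongr
        · exact h0.le
        · refine (measure_union_le _ _).trans ?_
          gcongr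
          simpa using hbad
  have h2 : (0 : ℝ≥0∞) + (3⁻¹ + ((16 : ℝ≥0∞)⁻¹ ^ 4) ^ 1) < 1 := by
    have : (0 : ℝ≥0∞) + (3⁻¹ + ((16 : ℝ≥0∞)⁻¹ ^ 4) ^ 1) =
        ENNReal.ofReal (3⁻¹ + ((16 : ℝ)⁻¹ ^ 4) ^ 1) := by
      rw [ENNReal.ofReal_add (by positivity) (by positivity), ENNReal.ofReal_pow (by positivity),
        ENNReal.ofReal_pow (by positivity), ENNReal.ofReal_inv_of_pos (by positivity),
        ENNReal.ofReal_inv_of_pos (by positivity)]
      simp
    rw [this, ENNReal.ofReal_lt_one]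
    norm_num
  exact absurd h1 (not_le.2 h2)

end Q288.CEC
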