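import Mathlib
import Pool.Agent.Q288.CEC.Defs
import Pool.Agent.Q288.CEC.Meas
import Pool.Agent.Q288.CTMC.NonExpl

/-!
# Comparison of chase-escape with conversion with the percolation model
-/

set_option autoImplicit false
set_option linter.unusedSectionVars false

namespace Q288.CEC

open MeasureTheory Filter Topology Pool.Agent.W845.CP Q288.Jump
open scoped ENNReal NNReal

variable {lam al : ℝ}

lemma rates_ne_zero (hal : 0 < al) {s : St} (hs : s.red ≠ ∅) : rates lam al s Set.univ ≠ 0 := by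
  rw [rates_univ]
  obtain ⟨x, hx⟩ := Finset.nonempty_iff_ne_empty.2 hs
  intro h
  rw [Finset.sum_eq_zero_iff] at h
  have h1 := h x hx
  simp only [add_eq_zero, ENNReal.ofReal_eq_zero] at h1
  linarith [h1.1.1]

lemma jump_of_ne (hal : 0 < al) {s : St} (hs : s.red ≠ ∅) : jump lam al s = rates lam al s := by
  unfold jump
  rw [if_neg (rates_ne_zero hal hs)]

lemma jump_of_empty {s : St} (hs : s.red = ∅) : jump lam al s = Measure.dirac s := by
  unfold jump
  rw [if_pos]
  rw [rates_univ, hs]; simp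

lemma ae_rates (P : St → Prop) (s : St)
    (h1 : ∀ x ∈ s.red, P (St.mk (s.red.erase x) (insert x s.blue)))
    (h2 : ∀ x ∈ s.red, ∀ y ∈ nb x \ (s.red ∪ s.blue), P (St.mk (insert y s.red) s.blue)) :
    ∀ᵐ t ∂(rates lam al s), P t := by
  classical
  have h := lintegral_rates lam al s (fun t => if P t then 0 else 1)
  have h0 : ∫⁻ t, (if P t then (0 : ℝ≥0∞) else 1) ∂(rates lam al s) = 0 := by
    rw [h]
    refine Finset.sum_eq_zero fun x hx => ?_
    rw [if_pos (h1 x hx), Finset.sum_eq_zero (fun y hy => by rw [if_pos (h2 x hx y hy)])]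
    simp
  rw [lintegral_eq_zero_iff (measurable_of_countable _)] at h0
  filter_upwards [h0] with t ht
  by_contra hc
  simp [hc] at ht

/-- invariants -/
def Inv (n : ℕ) (s : St) : Prop :=
  Disjoint s.red s.blue ∧ (s.red = ∅ ∨ s.red.card + 2 * s.blue.card = n + 1)

lemma Inv_start : Inv 0 ⟨{0}, ∅⟩ := ⟨by simp, Or.inr (by simp)⟩

lemma Inv_step (hal : 0 < al) (n : ℕ) (s : St) (h : Inv n s) :
    ∀ᵐ t ∂(jump lam al s), Inv (n + 1) t := by
  by_cases hs : s.red = ∅
  · rw [jump_of_empty hs, ae_dirac_eq]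
    exact ⟨h.1, Or.inl hs⟩
  · rw [jump_of_ne hal hs]
    have hc : s.red.card + 2 * s.blue.card = n + 1 := h.2.resolve_left hs
    refine ae_rates _ s ?_ ?_
    · intro x hx
      have hxb : x ∉ s.blue := Finset.disjoint_left.1 h.1 hx
      refine ⟨?_, Or.inr ?_⟩
      · rw [Finset.disjoint_insert_right]
        exact ⟨Finset.notMem_erase _ _, h.1.mono_left (Finset.erase_subset _ _)⟩
      · have hpos : 0 < s.red.card := Finset.card_pos.2 ⟨x, hx⟩
        simp only [Finset.card_erase_of_mem hx, Finset.card_insert_of_notMem hxb]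
        omega
    · intro x hx y hy
      rw [Finset.mem_sdiff, Finset.mem_union, not_or] at hy
      refine ⟨?_, Or.inr ?_⟩
      · simp only [Finset.disjoint_insert_left]
        exact ⟨hy.2.2, h.1⟩
      · simp only [Finset.card_insert_of_notMem hy.2.1]
        omega

lemma absorb (hal : 0 < al) : ∀ᵐ ω ∂(ceLaw lam al), ∀ n, (ω n).1.red = ∅ → (ω (n + 1)).1.red = ∅ := by
  have := ae_rel (jump lam al) (goodJ_jump lam al) ⟨{0}, ∅⟩
    (fun s t => s.red = ∅ → t.red = ∅) (by
    intro s
    by_cases hs : s.red = ∅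
    · rw [jump_of_empty hs, ae_dirac_eq]
      exact fun h => h
    · exact Filter.Eventually.of_forall fun t h => absurd h hs)
  exact this

lemma X_lt_top_iff (ω : ℕ → St × ℝ) : X ω < ⊤ ↔ ∃ k, (ω k).1.red = ∅ := by
  unfold X
  by_cases h : ∃ k, (ω k).1.red = ∅
  · rw [dif_pos h]
    exact ⟨fun _ => h, fun _ => ENat.natCast_lt_top _⟩
  · rw [dif_neg h]
    simp [h]

lemma meas_red (n : ℕ) : MeasurableSet {ω : ℕ → St × ℝ | (ω n).1.red ≠ ∅} := by
  have : Measurable (fun ω : ℕ → St × ℝ => (ω n).1) := by fun_prop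
  exact this (DiscreteMeasurableSpace.forall_measurableSet {s : St | s.red ≠ ∅})

lemma prob_red (n : ℕ) : ceLaw lam al {ω | (ω n).1.red ≠ ∅} =
    ∫⁻ ω, (fun s : St => if s.red = ∅ then (0 : ℝ≥0∞) else 1) (ω n).1 ∂(ceLaw lam al) := by
  rw [← lintegral_indicator_one (meas_red n)]
  refine lintegral_congr fun ω => ?_
  by_cases h : (ω n).1.red = ∅ <;> simp [Set.indicator, h]

/-- The process does not explode. -/
theorem no_explosion (hal : 0 < al) :
    ∀ᵐ ω ∂(ceLaw lam al), Tendsto (fun k => (ω k).2) atTop atTop := by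
  have hc : 0 < 1 + (al + 4 + 4 * |lam|) := by positivity
  refine nonexplosion (jump lam al) (goodJ_jump lam al) ⟨{0}, ∅⟩ (1 + (al + 4 + 4 * |lam|)) hc ?_
  filter_upwards [ae_inv (jump lam al) (goodJ_jump lam al) ⟨{0}, ∅⟩ Inv Inv_start
    (Inv_step hal)] with ω hω n
  have h := hω n
  by_cases hs : (ω n).1.red = ∅
  · rw [jump_of_empty hs]
    simp only [measure_univ, ENNReal.toReal_one]
    have h0 : (0 : ℝ) ≤ n := Nat.cast_nonneg n
    nlinarith [abs_nonneg lam]
  · rw [jump_of_ne hal hs, rates_univ]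
    have hc : (ω n).1.red.card + 2 * (ω n).1.blue.card = n + 1 := h.2.resolve_left hs
    have hb : ∑ x ∈ (ω n).1.red, ((ENNReal.ofReal al + ((nb x ∩ (ω n).1.blue).card : ℝ≥0∞)) +
      ENNReal.ofReal lam * ((nb x \ ((ω n).1.red ∪ (ω n).1.blue)).card : ℝ≥0∞)) ≤
        ∑ x ∈ (ω n).1.red, ENNReal.ofReal (al + 4 + 4 * |lam|) := by
      refine Finset.sum_le_sum fun x _ => ?_
      have h1 : ((nb x ∩ (ω n).1.blue).card : ℝ≥0∞) ≤ ENNReal.ofReal 4 := by
        rw [show ENNReal.ofReal 4 = ((4 : ℕ) : ℝ≥0∞) by simp]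
        exact_mod_cast (Finset.card_le_card Finset.inter_subset_left).trans (nb_card x).le
      have h2 : ((nb x \ ((ω n).1.red ∪ (ω n).1.blue)).card : ℝ≥0∞) ≤ ENNReal.ofReal 4 := by
        rw [show ENNReal.ofReal 4 = ((4 : ℕ) : ℝ≥0∞) by simp]
        exact_mod_cast (Finset.card_le_card Finset.sdiff_subset).trans (nb_card x).le
      have h3 : ENNReal.ofReal lam ≤ ENNReal.ofReal |lam| := ENNReal.ofReal_le_ofReal (le_abs_self _)
      calc _ ≤ (ENNReal.ofReal al + ENNReal.ofReal 4) + ENNReal.ofReal |lam| * ENNReal.ofReal 4 := by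
            gcongr
        _ = ENNReal.ofReal (al + 4 + 4 * |lam|) := by
            rw [← ENNReal.ofReal_mul (abs_nonneg _), ← ENNReal.ofReal_add hal.le (by norm_num),
              ← ENNReal.ofReal_add (by positivity) (by positivity)]
            congr 1; ring
    rw [Finset.sum_const, nsmul_eq_mul] at hb
    have hb2 := ENNReal.toReal_mono (by finiteness) hb
    rw [ENNReal.toReal_mul, ENNReal.toReal_natCast, ENNReal.toReal_ofReal (by positivity)] at hb2
    refine hb2.trans ?_
    have hcard : ((ω n).1.red.card : ℝ) ≤ n + 1 := by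
      have : (ω n).1.red.card ≤ n + 1 := by omega
      exact_mod_cast this
    have hA : 0 ≤ al + 4 + 4 * |lam| := by positivity
    nlinarith

/-! ### Upper comparison -/

/-- the one-step bound when `μ = lam / al`. -/
lemma step_le {Φ : Set V → Prop} (hM : MeasΦ Φ) (hΦ : ∀ S T, S ⊆ T → Φ S → Φ T) (hal : 0 < al)
    (μ : ℝ≥0) (hμ : ENNReal.ofReal lam = ENNReal.ofReal al * μ) (n : ℕ) (s : St) (hs : Inv n s) :
    ∫⁻ t, qq Φ μ t.red t.blue ∂(jump lam al s) ≤ jump lam al s Set.univ * qq Φ μ s.red s.blue := by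
  by_cases h : s.red = ∅
  · rw [jump_of_empty h, lintegral_dirac]
    simp
  · rw [jump_of_ne hal h, lintegral_rates, rates_univ, Finset.sum_mul]
    refine Finset.sum_le_sum fun x hx => ?_
    have h1 := qq_step hM μ hx hs.1
    have h2 := qq_erase hΦ μ (R := s.red) (B := s.blue) hx
    simp only
    calc _ = ENNReal.ofReal al * (qq Φ μ (s.red.erase x) (insert x s.blue) +
            μ * ∑ y ∈ nb x \ (s.red ∪ s.blue), qq Φ μ (insert y s.red) s.blue) +
          ((nb x ∩ s.blue).card : ℝ≥0∞) * qq Φ μ (s.red.erase x) (insert x s.blue) := by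
          rw [hμ]; ring
      _ ≤ ENNReal.ofReal al * (qq Φ μ (s.red.erase x) (insert x s.blue) +
            μ * ∑ y ∈ nb x \ (s.red ∪ s.blue), qq Φ μ (insert y s.red) s.blue) +
          ((nb x ∩ s.blue).card : ℝ≥0∞) * qq Φ μ s.red s.blue := by gcongr
      _ = _ := by
          rw [← h1, hμ]; ring

theorem extinct_of_theta (hal : 0 < al) (μ : ℝ≥0) (hμ : ENNReal.ofReal lam = ENNReal.ofReal al * μ)
    (hθ : theta μ = 0) : ∀ᵐ ω ∂(ceLaw lam al), X ω < ⊤ := by
  have hbound : ∀ n : ℕ, ceLaw lam al {ω | ¬ X ω < ⊤} ≤ qq (Big n) μ {0} ∅ := by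
    intro n
    calc ceLaw lam al {ω | ¬ X ω < ⊤} ≤ ceLaw lam al {ω | (ω (2 * n)).1.red ≠ ∅} := by
          apply measure_mono
          intro ω hω
          simp only [Set.mem_ofPred_eq, X_lt_top_iff, not_exists] at hω
          exact hω _
      _ = ∫⁻ ω, (fun s : St => if s.red = ∅ then (0 : ℝ≥0∞) else 1) (ω (2 * n)).1
            ∂(ceLaw lam al) := prob_red _
      _ ≤ ∫⁻ ω, (fun s : St => qq (Big n) μ s.red s.blue) (ω (2 * n)).1 ∂(ceLaw lam al) := by
          refine lintegral_mono_ae ?_
          filter_upwards [ae_inv (jump lam al) (goodJ_jump lam al) ⟨{0}, ∅⟩ Inv Inv_start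
            (Inv_step hal)] with ω hω
          have h := hω (2 * n)
          by_cases hs : (ω (2 * n)).1.red = ∅
          · rw [if_pos hs]; exact zero_le
          · rw [if_neg hs]
            have hc := h.2.resolve_left hs
            have hd := Finset.card_union_of_disjoint h.1
            have : {ω' : V → Dir | Big n (FS ω' ((ω (2 * n)).1.red : Set V)
                ((ω (2 * n)).1.blue : Set V))} = Set.univ := by
              ext ω'
              simp only [Set.mem_ofPred_eq, Set.mem_univ, iff_true]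
              rw [Big_iff]
              obtain ⟨F, hF, hFn⟩ := Finset.exists_subset_card_eq
                (show n ≤ ((ω (2 * n)).1.red ∪ (ω (2 * n)).1.blue).card by omega)
              refine ⟨F, hFn, fun y hy => ?_⟩
              rcases Finset.mem_union.1 (hF hy) with h' | h'
              · left; exact Cl.base _ h'
              · right; exact h'
            unfold qq
            rw [this, measure_univ]
      _ ≤ qq (Big n) μ {0} ∅ :=
          lintegral_le_start (jump lam al) (goodJ_jump lam al) ⟨{0}, ∅⟩ Inv Inv_start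
            (Inv_step hal) (fun s : St => qq (Big n) μ s.red s.blue)
            (fun k s hs => step_le (meas_Big n) (Big_mono n) hal μ hμ k s hs) _
  rw [ae_iff]
  have hlim := tendsto_qq_Big μ
  rw [hθ] at hlim
  exact le_antisymm (ge_of_tendsto' hlim hbound) zero_le

/-! ### Lower comparison -/

/-- the one-step bound when `μ = lam / (al + 4)`. -/
lemma le_step {Φ : Set V → Prop} (hM : MeasΦ Φ) (hΦ : ∀ S T, S ⊆ T → Φ S → Φ T) (hal : 0 < al)
    (μ : ℝ≥0) (hμ : ENNReal.ofReal lam = (ENNReal.ofReal al + 4) * μ) (n : ℕ) (s : St)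
    (hs : Inv n s) :
    jump lam al s Set.univ * qq Φ μ s.red s.blue ≤ ∫⁻ t, qq Φ μ t.red t.blue ∂(jump lam al s) := by
  by_cases h : s.red = ∅
  · rw [jump_of_empty h, lintegral_dirac]
    simp
  · rw [jump_of_ne hal h, lintegral_rates, rates_univ, Finset.sum_mul]
    refine Finset.sum_le_sum fun x hx => ?_
    have h1 := qq_step hM μ hx hs.1
    have h2 := qq_erase hΦ μ (R := s.red) (B := s.blue) hx
    simp only
    have hb : (nb x ∩ s.blue).card ≤ 4 :=
      (Finset.card_le_card Finset.inter_subset_left).trans (nb_card x).le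
    have h4 : (4 : ℝ≥0∞) = ((nb x ∩ s.blue).card : ℝ≥0∞) + ((4 - (nb x ∩ s.blue).card : ℕ) : ℝ≥0∞) := by
      rw [← Nat.cast_add, show (nb x ∩ s.blue).card + (4 - (nb x ∩ s.blue).card) = 4 by omega]
      norm_num
    set b : ℝ≥0∞ := ((nb x ∩ s.blue).card : ℝ≥0∞) with hbdef
    set c : ℝ≥0∞ := ((4 - (nb x ∩ s.blue).card : ℕ) : ℝ≥0∞) with hcdef
    set w : ℝ≥0∞ := ((nb x \ (s.red ∪ s.blue)).card : ℝ≥0∞) with hw
    set E : ℝ≥0∞ := qq Φ μ (s.red.erase x) (insert x s.blue) with hE
    set Sg : ℝ≥0∞ := ∑ y ∈ nb x \ (s.red ∪ s.blue), qq Φ μ (insert y s.red) s.blue with hSg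
    set q : ℝ≥0∞ := qq Φ μ s.red s.blue with hq
    have hEtop : c * E ≠ ⊤ := ENNReal.mul_ne_top (ENNReal.natCast_ne_top _)
      (ne_top_of_le_ne_top ENNReal.one_ne_top (qq_le_one _ _ _ _))
    refine (ENNReal.add_le_add_iff_right hEtop).1 ?_
    calc (ENNReal.ofReal al + b + ENNReal.ofReal lam * w) * q + c * E
        ≤ (ENNReal.ofReal al + b + ENNReal.ofReal lam * w) * q + c * q := by gcongr
      _ = (ENNReal.ofReal al + 4) * ((1 + w * μ) * q) := by
          rw [hμ]
          calc _ = ((ENNReal.ofReal al + (b + c)) + (ENNReal.ofReal al + 4) * μ * w) * q := by ring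
            _ = _ := by rw [← h4]; ring
      _ = (ENNReal.ofReal al + 4) * (E + μ * Sg) := by rw [h1]
      _ = (ENNReal.ofReal al + b) * E + ENNReal.ofReal lam * Sg + c * E := by
          rw [hμ]
          calc _ = (ENNReal.ofReal al + 4) * E + (ENNReal.ofReal al + 4) * μ * Sg := by ring
            _ = (ENNReal.ofReal al + (b + c)) * E + (ENNReal.ofReal al + 4) * μ * Sg := by
                rw [← h4]
            _ = _ := by ring

theorem survive_of_theta (hal : 0 < al) (μ : ℝ≥0)
    (hμ : ENNReal.ofReal lam = (ENNReal.ofReal al + 4) * μ) (hθ : 0 < theta μ) :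
    ¬ ∀ᵐ ω ∂(ceLaw lam al), X ω < ⊤ := by
  have hk : ∀ k : ℕ, theta μ ≤ ceLaw lam al {ω | (ω k).1.red ≠ ∅} := by
    intro k
    calc theta μ ≤ ∫⁻ ω, (fun s : St => qq Set.Infinite μ s.red s.blue) (ω k).1 ∂(ceLaw lam al) :=
          start_le_lintegral (jump lam al) (goodJ_jump lam al) ⟨{0}, ∅⟩ Inv Inv_start
            (Inv_step hal) (fun s : St => qq Set.Infinite μ s.red s.blue)
            (fun k s hs => le_step meas_inf (fun S T h h' => inf_mono S T h h') hal μ hμ k s hs) k
      _ ≤ ∫⁻ ω, (fun s : St => if s.red = ∅ then (0 : ℝ≥0∞) else 1) (ω k).1 ∂(ceLaw lam al) := by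
          refine lintegral_mono fun ω => ?_
          simp only
          by_cases hs : (ω k).1.red = ∅
          · rw [if_pos hs, hs]
            unfold qq
            have : {ω' : V → Dir | Set.Infinite (FS ω' ((∅ : Finset V) : Set V)
                ((ω k).1.blue : Set V))} = ∅ := by
              ext ω'
              simp only [Set.mem_ofPred_eq, Set.mem_empty_iff_false, iff_false, Set.not_infinite]
              have : FS ω' ((∅ : Finset V) : Set V) ((ω k).1.blue : Set V) ⊆
                  ((ω k).1.blue : Set V) := by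
                rintro y (hy | hy)
                · have hy' : Cl ω' ((∅ : Finset V) : Set V) ((ω k).1.blue : Set V) y := hy
                  exfalso
                  clear hy
                  induction hy' with
                  | base y h => simp at h
                  | step y i _ _ _ ih => exact ih
                · exact hy
              exact (Finset.finite_toSet _).subset this
            rw [this]; simp
          · rw [if_neg hs]; exact qq_le_one _ _ _ _
      _ = ceLaw lam al {ω | (ω k).1.red ≠ ∅} := (prob_red k).symm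
  intro hae
  have hk2 : ∀ k : ℕ, theta μ ≤ ceLaw lam al {ω | ∀ j ≤ k, (ω j).1.red ≠ ∅} := by
    intro k
    refine (hk k).trans (le_of_eq (measure_congr ?_))
    filter_upwards [absorb (lam := lam) hal] with ω hω
    have hmono : ∀ j k, j ≤ k → (ω j).1.red = ∅ → (ω k).1.red = ∅ := by
      intro j k hjk h
      induction k, hjk using Nat.le_induction with
      | base => exact h
      | succ k _ ih => exact hω k ih
    apply propext
    show (ω k).1.red ≠ ∅ ↔ ∀ j ≤ k, (ω j).1.red ≠ ∅
    constructor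
    · intro h j hj h'
      exact h (hmono j k hj h')
    · intro h
      exact h k le_rfl
  haveI : IsProbabilityMeasure (ceLaw lam al) := by unfold ceLaw; infer_instance
  have hlim : Tendsto (fun k => ceLaw lam al {ω | ∀ j ≤ k, (ω j).1.red ≠ ∅}) atTop
      (𝓝 (ceLaw lam al (⋂ k : ℕ, {ω | ∀ j ≤ k, (ω j).1.red ≠ ∅}))) := by
    refine tendsto_measure_iInter_atTop (fun k => ?_) ?_ ⟨0, measure_ne_top _ _⟩
    · refine MeasurableSet.nullMeasurableSet ?_
      have : {ω : ℕ → St × ℝ | ∀ j ≤ k, (ω j).1.red ≠ ∅} =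
          ⋂ j : ℕ, ⋂ (_ : j ≤ k), {ω | (ω j).1.red ≠ ∅} := by
        ext ω; simp
      rw [this]
      exact MeasurableSet.iInter fun j => MeasurableSet.iInter fun _ => meas_red j
    · intro k l hkl ω hω j hj
      exact hω j (hj.trans hkl)
  have h1 := ge_of_tendsto' hlim hk2
  have h2 : ceLaw lam al (⋂ k : ℕ, {ω | ∀ j ≤ k, (ω j).1.red ≠ ∅}) = 0 := by
    rw [ae_iff] at hae
    refine measure_mono_null ?_ hae
    intro ω hω
    simp only [Set.mem_iInter, Set.mem_ofPred_eq] at hω
    simp only [Set.mem_ofPred_eq, X_lt_top_iff, not_exists]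
    intro k
    exact hω k k le_rfl
  rw [h2] at h1
  exact absurd h1 (not_le.2 hθ)

/-! ### Extinction for small infection rate -/

theorem extinct_small (hal : 0 < al) (hlam : 8 * lam ≤ al) :
    ∀ᵐ ω ∂(ceLaw lam al), X ω < ⊤ := by
  haveI : IsProbabilityMeasure (ceLaw lam al) := by unfold ceLaw; infer_instance
  have hstep : ∀ n s, Inv n s → ∫⁻ t, 3 * (t.red.card : ℝ≥0∞) ∂(jump lam al s) +
      jump lam al s Set.univ * (if s.red = ∅ then (0 : ℝ≥0∞) else 1) ≤
      jump lam al s Set.univ * (3 * (s.red.card : ℝ≥0∞)) := by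
    intro n s hs
    by_cases h : s.red = ∅
    · rw [jump_of_empty h, lintegral_dirac, if_pos h]
      simp
    · rw [jump_of_ne hal h, lintegral_rates, rates_univ, if_neg h, mul_one, ← Finset.sum_add_distrib,
        Finset.sum_mul]
      refine Finset.sum_le_sum fun x hx => ?_
      simp only
      have e2 : ∑ y ∈ nb x \ (s.red ∪ s.blue), 3 * (((insert y s.red).card : ℕ) : ℝ≥0∞) =
          ((nb x \ (s.red ∪ s.blue)).card : ℝ≥0∞) * (3 * ((s.red.card : ℝ≥0∞) + 1)) := by
        rw [Finset.sum_congr rfl (g := fun _ => 3 * ((s.red.card : ℝ≥0∞) + 1)), Finset.sum_const,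
          nsmul_eq_mul]
        intro y hy
        rw [Finset.mem_sdiff, Finset.mem_union, not_or] at hy
        rw [Finset.card_insert_of_notMem hy.2.1]
        push_cast; ring
      rw [e2]
      have e3 : (s.red.card : ℝ≥0∞) = ((s.red.erase x).card : ℝ≥0∞) + 1 := by
        have := Finset.card_erase_add_one hx
        rw [← this]; push_cast; ring
      rw [e3]
      set c : ℝ≥0∞ := ((s.red.erase x).card : ℝ≥0∞)
      set b : ℝ≥0∞ := ((nb x ∩ s.blue).card : ℝ≥0∞)
      set w : ℝ≥0∞ := ((nb x \ (s.red ∪ s.blue)).card : ℝ≥0∞) with hw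
      have hw4 : w ≤ 4 := by
        rw [hw]
        exact_mod_cast (Finset.card_le_card Finset.sdiff_subset).trans (nb_card x).le
      have hlw : 4 * (ENNReal.ofReal lam * w) ≤ 2 * ENNReal.ofReal al := by
        have h1 : ENNReal.ofReal (8 * lam) ≤ ENNReal.ofReal al := ENNReal.ofReal_le_ofReal hlam
        rw [ENNReal.ofReal_mul (by norm_num)] at h1
        calc 4 * (ENNReal.ofReal lam * w) ≤ 4 * (ENNReal.ofReal lam * 4) := by gcongr
          _ = 2 * (8 * ENNReal.ofReal lam) := by ring
          _ = 2 * (ENNReal.ofReal 8 * ENNReal.ofReal lam) := by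
              congr 2; simp
          _ ≤ _ := by gcongr
      calc (ENNReal.ofReal al + b) * (3 * c) + ENNReal.ofReal lam * (w * (3 * (c + 1 + 1))) +
            (ENNReal.ofReal al + b + ENNReal.ofReal lam * w)
          = (ENNReal.ofReal al + b) * (3 * c) + (ENNReal.ofReal lam * w) * (3 * (c + 1)) +
            (ENNReal.ofReal al + b) + 4 * (ENNReal.ofReal lam * w) := by ring
        _ ≤ (ENNReal.ofReal al + b) * (3 * c) + (ENNReal.ofReal lam * w) * (3 * (c + 1)) +
            (ENNReal.ofReal al + b) + 2 * (ENNReal.ofReal al + b) := by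
            refine add_le_add le_rfl (hlw.trans ?_)
            gcongr
            exact le_self_add
        _ = _ := by ring
  have hsum : ∀ n : ℕ, (n : ℝ≥0∞) * ceLaw lam al {ω | ¬ X ω < ⊤} ≤ 3 := by
    intro n
    have h1 := sum_lintegral_le (jump lam al) (goodJ_jump lam al) ⟨{0}, ∅⟩ Inv Inv_start
      (Inv_step hal) (fun s : St => 3 * (s.red.card : ℝ≥0∞))
      (fun s : St => if s.red = ∅ then (0 : ℝ≥0∞) else 1) hstep n
    calc (n : ℝ≥0∞) * ceLaw lam al {ω | ¬ X ω < ⊤}
        = ∑ k ∈ Finset.range n, ceLaw lam al {ω | ¬ X ω < ⊤} := by simp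
      _ ≤ ∑ k ∈ Finset.range n, ∫⁻ ω, (fun s : St => if s.red = ∅ then (0 : ℝ≥0∞) else 1) (ω k).1
            ∂(ceLaw lam al) := by
          refine Finset.sum_le_sum fun k _ => ?_
          rw [← prob_red]
          apply measure_mono
          intro ω hω
          simp only [Set.mem_ofPred_eq, X_lt_top_iff, not_exists] at hω
          exact hω _
      _ ≤ 3 * ((({0} : Finset (ℤ × ℤ)).card : ℕ) : ℝ≥0∞) := le_trans le_add_self h1
      _ = 3 := by simp
  rw [ae_iff]
  by_contra hne
  have hp : 0 < ceLaw lam al {ω | ¬ X ω < ⊤} := pos_iff_ne_zero.2 hne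
  have htop : ceLaw lam al {ω | ¬ X ω < ⊤} ≠ ⊤ := measure_ne_top _ _
  obtain ⟨n, hn⟩ := ENNReal.exists_nat_mul_gt hne (show (3 : ℝ≥0∞) ≠ ⊤ by norm_num)
  exact absurd (hsum n) (not_le.2 hn)

end Q288.CEC
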