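import Mathlib
import Pool.Agent.Q288.CEC.Main

/-!
# The critical rate divided by the conversion rate converges
-/

set_option autoImplicit false
set_option linter.unusedSectionVars false

namespace Q288.CEC

open MeasureTheory Filter Topology Pool.Agent.W845.CP Q288.Jump
open scoped ENNReal NNReal

lemma wt_zero_toReal (μ : ℝ≥0) : (wt μ 0).toReal = 1 / (1 + 4 * (μ : ℝ)) := by
  rw [wt, ENNReal.toReal_inv, ENNReal.toReal_add (by simp) (by finiteness), ENNReal.toReal_mul]
  simp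

lemma wt_succ_toReal (μ : ℝ≥0) (k : ℕ) : (wt μ (k + 1)).toReal =
    (μ : ℝ) * (k + 1 : ℕ) * (wt μ k).toReal / (1 + (3 - k : ℕ) * (μ : ℝ)) := by
  rw [wt, ENNReal.toReal_mul, ENNReal.toReal_mul, ENNReal.toReal_mul, ENNReal.toReal_inv,
    ENNReal.toReal_add (by simp) (by finiteness), ENNReal.toReal_mul, ENNReal.toReal_natCast,
    ENNReal.toReal_natCast, div_eq_mul_inv]
  rfl

lemma wt_four (μ : ℝ≥0) : (wt μ 4).toReal = 24 * (μ : ℝ) ^ 4 /
    ((1 + 4 * (μ : ℝ)) * (1 + 3 * (μ : ℝ)) * (1 + 2 * (μ : ℝ)) * (1 + (μ : ℝ))) := by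
  rw [wt_succ_toReal, wt_succ_toReal, wt_succ_toReal, wt_succ_toReal, wt_zero_toReal]
  have h := μ.coe_nonneg
  push_cast
  field_simp
  ring

lemma theta_pos_large (μ : ℝ≥0) (hμ : 200000 ≤ (μ : ℝ)) : 0 < theta μ := by
  apply theta_pos_of
  set m : ℝ := (μ : ℝ) with hm
  have h1 : nu μ {S | S ≠ Finset.univ} + nu μ {Finset.univ} = 1 := by
    have : ({S : Dir | S ≠ Finset.univ}) = {Finset.univ}ᶜ := by ext S; simp
    rw [this, add_comm, measure_add_measure_compl (DiscreteMeasurableSpace.forall_measurableSet _),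
      measure_univ]
  have h2 : nu μ {Finset.univ} = wt μ 4 := by
    rw [← lintegral_indicator_one (DiscreteMeasurableSpace.forall_measurableSet _), lintegral_nu]
    unfold av
    rw [Finset.sum_eq_single Finset.univ]
    · simp
    · intro S _ hS
      simp [Set.indicator, hS]
    · simp
  have h3 : (nu μ {S | S ≠ Finset.univ}).toReal = 1 - (wt μ 4).toReal := by
    have := congrArg ENNReal.toReal h1
    rw [ENNReal.toReal_add (measure_ne_top _ _) (measure_ne_top _ _), h2] at this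
    simp only [ENNReal.toReal_one] at this
    linarith
  have h4 : 1 - (wt μ 4).toReal ≤ ((16 : ℝ)⁻¹) ^ 4 := by
    rw [wt_four, ← hm]
    have hpos : 0 < ((1 + 4 * m) * (1 + 3 * m) * (1 + 2 * m) * (1 + m)) := by positivity
    rw [sub_le_iff_le_add, ← sub_le_iff_le_add', le_div_iff₀ hpos]
    have hm3 : 0 ≤ m ^ 3 := by positivity
    have hm2 : 0 ≤ m ^ 2 := by positivity
    have k1 : 200000 * m ^ 3 ≤ m ^ 4 := by nlinarith
    have k2 : 200000 * m ^ 2 ≤ m ^ 3 := by nlinarith
    have k3 : 200000 * m ≤ m ^ 2 := by nlinarith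
    have e : (1 + 4 * m) * (1 + 3 * m) * (1 + 2 * m) * (1 + m) =
        24 * m ^ 4 + 50 * m ^ 3 + 35 * m ^ 2 + 10 * m + 1 := by ring
    rw [e]
    norm_num
    nlinarith
  have h5 : nu μ {S | S ≠ Finset.univ} = ENNReal.ofReal (1 - (wt μ 4).toReal) := by
    rw [← h3, ENNReal.ofReal_toReal (measure_ne_top _ _)]
  rw [h5]
  calc ENNReal.ofReal (1 - (wt μ 4).toReal) ≤ ENNReal.ofReal (((16 : ℝ)⁻¹) ^ 4) :=
        ENNReal.ofReal_le_ofReal h4
    _ = (16 : ℝ≥0∞)⁻¹ ^ 4 := by
        rw [ENNReal.ofReal_pow (by norm_num), ENNReal.ofReal_inv_of_pos (by norm_num)]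
        simp

/-- parameters at which the percolation model does not percolate -/
def Zset : Set ℝ := {m : ℝ | 0 < m ∧ theta m.toNNReal = 0}

lemma Zset_bdd : BddAbove Zset := by
  refine ⟨200000, fun m hm => ?_⟩
  by_contra hc
  push Not at hc
  have := theta_pos_large m.toNNReal (by rw [Real.coe_toNNReal _ hm.1.le]; exact hc.le)
  rw [hm.2] at this
  exact lt_irrefl _ this

/-- the set in the definition of the critical rate -/
def Lset (al : ℝ) : Set ℝ := {lam : ℝ | 0 < lam ∧ ∀ᵐ ω ∂(ceLaw lam al), X ω < ⊤}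

lemma Lset_sub {al lam : ℝ} (hal : 0 < al) (h : lam ∈ Lset al) : lam / (al + 4) ∈ Zset := by
  refine ⟨div_pos h.1 (by linarith), ?_⟩
  by_contra hne
  refine survive_of_theta (lam := lam) hal (lam / (al + 4)).toNNReal ?_ (pos_iff_ne_zero.2 hne) h.2
  rw [← ENNReal.ofReal, show (4 : ℝ≥0∞) = ENNReal.ofReal 4 by simp, ← ENNReal.ofReal_add hal.le
    (by norm_num), ← ENNReal.ofReal_mul (by linarith)]
  congr 1
  field_simp

lemma sub_Lset {al m : ℝ} (hal : 0 < al) (h : m ∈ Zset) : m * al ∈ Lset al := by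
  refine ⟨mul_pos h.1 hal, ?_⟩
  refine extinct_of_theta hal m.toNNReal ?_ h.2
  rw [← ENNReal.ofReal, ← ENNReal.ofReal_mul hal.le]
  congr 1; ring

lemma small_Lset {al : ℝ} (hal : 0 < al) : al / 8 ∈ Lset al :=
  ⟨by linarith, extinct_small hal (by linarith)⟩

lemma Lset_bdd {al : ℝ} (hal : 0 < al) : BddAbove (Lset al) := by
  obtain ⟨M, hM⟩ := Zset_bdd
  refine ⟨M * (al + 4), fun lam hl => ?_⟩
  have h1 : lam / (al + 4) ≤ M := hM (Lset_sub hal hl)
  rwa [div_le_iff₀ (by linarith)] at h1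

/-- Two-sided bound for the critical rate. -/
theorem lamc_bounds {al : ℝ} (hal : 0 < al) :
    sSup Zset * al ≤ lamc al ∧ lamc al ≤ sSup Zset * (al + 4) := by
  have hZne : Zset.Nonempty := ⟨_, Lset_sub hal (small_Lset hal)⟩
  have hlam : lamc al = sSup (Lset al) := rfl
  constructor
  · rw [hlam, ← le_div_iff₀ hal]
    refine csSup_le hZne fun m hm => ?_
    rw [le_div_iff₀ hal]
    exact le_csSup (Lset_bdd hal) (sub_Lset hal hm)
  · rw [hlam]
    refine csSup_le ⟨_, small_Lset hal⟩ fun lam hl => ?_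
    have h1 := le_csSup Zset_bdd (Lset_sub hal hl)
    rwa [div_le_iff₀ (by linarith)] at h1

theorem muc_pos : 0 < sSup Zset := by
  have h := Lset_sub one_pos (small_Lset one_pos)
  exact lt_of_lt_of_le h.1 (le_csSup Zset_bdd h)

theorem lamc_limit : Tendsto (fun al : ℝ => lamc al / al) atTop (𝓝 (sSup Zset)) := by
  have h1 : Tendsto (fun al : ℝ => sSup Zset * (1 + 4 / al)) atTop (𝓝 (sSup Zset)) := by
    have h2 : Tendsto (fun al : ℝ => 4 / al) atTop (𝓝 0) := tendsto_const_nhds.div_atTop tendsto_id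
    have h3 := (h2.const_add 1).const_mul (sSup Zset)
    simpa using h3
  refine tendsto_of_tendsto_of_tendsto_of_le_of_le' tendsto_const_nhds h1 ?_ ?_
  · filter_upwards [eventually_gt_atTop 0] with al hal
    rw [le_div_iff₀ hal]
    exact (lamc_bounds hal).1
  · filter_upwards [eventually_gt_atTop 0] with al hal
    rw [div_le_iff₀ hal]
    refine (lamc_bounds hal).2.trans (le_of_eq ?_)
    field_simp

end Q288.CEC
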